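import Pool.Agent.Lib.MP_d3fc00_an.Far

namespace Pool.Agent.Results.MP_d3fc00_an.GlobalAttractivity

open Filter Topology

/-- Every positive solution of `x (n+3) = x n / (C x (n+1) + x n)` converges to `1 / (C + 1)`
when `1 ≤ C ≤ (1 + √5) / 2`. -/
theorem result (C : ℝ) (hC1 : 1 ≤ C) (hC2 : C ≤ (1 + Real.sqrt 5) / 2) (x : ℕ → ℝ)
    (h0 : 0 < x 0) (h1 : 0 < x 1) (h2 : 0 < x 2)
    (hrec : ∀ n, x (n + 3) = x n / (C * x (n + 1) + x n)) :
    Tendsto x atTop (𝓝 (1 / (C + 1))) := by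
  have hpos3 : ∀ n, 0 < x n ∧ 0 < x (n + 1) ∧ 0 < x (n + 2) := by
    intro n
    induction n with
    | zero => exact ⟨h0, h1, h2⟩
    | succ n ih =>
      obtain ⟨a, b, c⟩ := ih
      refine ⟨b, c, ?_⟩
      rw [show n + 1 + 2 = n + 3 from rfl, hrec]
      positivity
  have hpos : ∀ n, 0 < x n := fun n => (hpos3 n).1
  have hC0 : 0 < C + 1 := by linarith
  have hCC : C ^ 2 ≤ C + 1 := by
    have h5 := Real.sq_sqrt (by norm_num : (0 : ℝ) ≤ 5)
    have h6 : 2 * C - 1 ≤ Real.sqrt 5 := by linarith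
    nlinarith
  have hp1 : 1 / 2 ≤ C / (C + 1) := by rw [le_div_iff₀ hC0]; linarith
  have hp2 : (C / (C + 1)) ^ 2 + C / (C + 1) ≤ 1 := by
    have e : (C / (C + 1)) ^ 2 + C / (C + 1) = (2 * C ^ 2 + C) / (C + 1) ^ 2 := by
      field_simp; ring
    rw [e, div_le_one (by positivity)]
    nlinarith
  have key := Pool.Agent.Lib.MP_d3fc00_an.Y_conv hp1 hp2 (Y := fun n => 1 / ((C + 1) * x n))
    (fun n => by have := hpos n; positivity)
    (fun n => by
      have a := hpos n
      have b := hpos (n + 1)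
      simp only [hrec n]
      field_simp
      ring)
  have lim := (key.const_mul (C + 1)).inv₀ (by positivity)
  have e : x = fun n => ((C + 1) * (1 / ((C + 1) * x n)))⁻¹ := by
    funext n
    have a := hpos n
    field_simp
  rw [e]
  simpa using lim

end Pool.Agent.Results.MP_d3fc00_an.GlobalAttractivity
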